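import Pool.Agent.H927.MG.SGoals

set_option autoImplicit false

open AlgebraicGeometry CategoryTheory Limits Polynomial
open scoped LaurentPolynomial
open LaurentPolynomial (T invert T_add T_zero involutive_invert invert_T invert_C)

namespace Pool.Agent.H603.MG927

open Pool.Agent.H927.MG Pool.Agent.W523

section
variable {R : Type} [CommRing R]

lemma inv_C (c : R) : inv R (LaurentPolynomial.C c) = LaurentPolynomial.C c := invert_C c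

lemma inv_T (n : ℤ) : inv R (T n) = T (-n) := invert_T n

lemma inv_inv (z : R[T;T⁻¹]) : inv R (inv R z) = z := involutive_invert z

lemma hxy : (T 1 : R[T;T⁻¹]) * T (-1) = 1 := by rw [← T_add]; norm_num

lemma X_pow_dvd_of_mul [IsDomain R] {D : R} (hD : D ≠ 0) {P G : R[X]} {n : ℕ}
    (h3 : C D * P = X ^ n * G) : (X ^ n : R[X]) ∣ P := by
  rw [X_pow_dvd_iff]
  intro d hd
  have h5 := congrArg (fun p => coeff p d) h3
  simp only [coeff_C_mul, coeff_X_pow_mul'] at h5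
  rw [if_neg (by omega)] at h5
  exact (mul_eq_zero.mp h5).resolve_left hD

/-- the abstract form of `key` -/
lemma key_abs {L : Type} [CommRing L] [IsDomain R] (θ : R[X] →+* L) (ι : L →+* L)
    (ψ : R →+* L) (x y : L) (hι : ∀ z, ι (ι z) = z) (hψ : ∀ c, ι (ψ c) = ψ c)
    (hC : ∀ c, θ (C c) = ψ c) (hX : θ X = x) (hxy : x * y = 1)
    (hinj : Function.Injective θ) (hex : ∀ z : L, ∃ (n : ℕ) (P : R[X]), θ P = z * x ^ n)
    {F : L} {D : R} (hD : D ≠ 0) {G : R[X]} (h : ψ D * F = ι (θ G)) :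
    ∃ V : R[X], ι (θ V) = F := by
  obtain ⟨n, P, hP⟩ := hex (ι F)
  have h1 : ψ D * ι F = θ G := by
    have h0 := congrArg ι h
    rwa [map_mul, hψ, hι] at h0
  have h2 : θ (C D * P) = θ (X ^ n * G) := by
    rw [map_mul, hC, hP, map_mul, ← h1, map_pow, hX]
    ring
  obtain ⟨V, rfl⟩ := X_pow_dvd_of_mul hD (hinj h2)
  refine ⟨V, ?_⟩
  have h7 : ι F = θ V := by
    have h6 : ι F * x ^ n = x ^ n * θ V := by
      rw [← hP, map_mul, map_pow, hX]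
    calc ι F = (ι F * x ^ n) * y ^ n := by
          rw [mul_assoc, ← mul_pow, hxy, one_pow, mul_one]
      _ = θ V := by
          rw [h6, mul_comm (x ^ n), mul_assoc, ← mul_pow, hxy, one_pow, mul_one]
  rw [← h7, hι]

end

section
variable {R L : Type} [CommRing R] [CommRing L] (φ θ : R[X] →+* L) (ψ : R →+* L) (x y : L)
  (hφC : ∀ c, φ (C c) = ψ c) (hθC : ∀ c, θ (C c) = ψ c) (hφX : φ X = y) (hθX : θ X = x)
  (h : x * y = 1)

include hφC hθC hφX hθX h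

lemma revA (c0 c1 c2 c3 : R) :
    φ (C c0 * X ^ 3 + C c1 * X ^ 2 - C c2 * X + C c3) =
      y ^ 3 * θ (C c0 + C c1 * X - C c2 * X ^ 2 + C c3 * X ^ 3) := by
  simp only [map_add, map_sub, map_mul, map_pow, hφC, hθC, hφX, hθX]
  linear_combination (-(ψ c1 * y ^ 2) + ψ c2 * y * (x * y + 1) -
    ψ c3 * (x ^ 2 * y ^ 2 + x * y + 1)) * h

lemma revQ (k a b c : R) :
    φ (C k * (C a * X ^ 2 - C b * X + C c)) =
      y ^ 2 * θ (C k * (C a - C b * X + C c * X ^ 2)) := by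
  simp only [map_add, map_sub, map_mul, map_pow, hφC, hθC, hφX, hθX]
  linear_combination (ψ k * ψ b * y - ψ k * ψ c * (x * y + 1)) * h

omit hθC hθX in
lemma revl (ξ₁ ξ₂ : R) : φ ((1 - C ξ₁ * X) * (1 - C ξ₂ * X)) =
    y ^ 2 * ((x - ψ ξ₁) * (x - ψ ξ₂)) := by
  simp only [map_sub, map_mul, map_one, hφC, hφX]
  linear_combination (-(x * y + 1) + (ψ ξ₁ + ψ ξ₂) * y) * h

omit hθC hθX in
lemma reva (e s i μ : R) :
    φ (C e * ((C s * X + 1) * C i) + C s * (1 - C μ * X)) =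
      ψ e * ((ψ s * y + 1) * ψ i) + ψ s * y * (x - ψ μ) := by
  simp only [map_add, map_sub, map_mul, map_one, hφC, hφX]
  linear_combination (-ψ s) * h

end

lemma alg1 {L : Type} [CommRing L] (A Q M E b s y D v w : L)
    (hV : D * v = A * (M ^ 2 + (M ^ 2 - E)) - 2 * M * (M ^ 2 - E) * Q)
    (hT : D * w = Q * (M ^ 2 + (M ^ 2 - E)) - 2 * M * A) :
    D * (y ^ 3 * (v * ((M * b + s * y) ^ 2 + (M ^ 2 - E) * b ^ 2) +
      2 * (M * b + s * y) * b * (M ^ 2 - E) * w)) =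
    (y ^ 3 * A) * ((E * b + s * y * M) ^ 2 + s ^ 2 * (y ^ 2 * (M ^ 2 - E))) -
      2 * s * (E * b + s * y * M) * (y ^ 2 * (M ^ 2 - E)) * (y ^ 2 * Q) := by
  linear_combination (y ^ 3 * ((M * b + s * y) ^ 2 + (M ^ 2 - E) * b ^ 2)) * hV +
    (y ^ 3 * 2 * (M * b + s * y) * b * (M ^ 2 - E)) * hT

lemma alg2 {L : Type} [CommRing L] (A Q M E b s y D v w : L)
    (hV : D * v = A * (M ^ 2 + (M ^ 2 - E)) - 2 * M * (M ^ 2 - E) * Q)
    (hT : D * w = Q * (M ^ 2 + (M ^ 2 - E)) - 2 * M * A) :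
    D * (y ^ 2 * (w * ((M * b + s * y) ^ 2 + (M ^ 2 - E) * b ^ 2) +
      2 * (M * b + s * y) * b * v)) =
    (y ^ 2 * Q) * ((E * b + s * y * M) ^ 2 + s ^ 2 * (y ^ 2 * (M ^ 2 - E))) -
      2 * s * (E * b + s * y * M) * (y ^ 3 * A) := by
  linear_combination (y ^ 2 * 2 * (M * b + s * y) * b) * hV +
    (y ^ 2 * ((M * b + s * y) ^ 2 + (M ^ 2 - E) * b ^ 2)) * hT

lemma slm_eq {L : Type} [CommRing L] (x m e : L) : (x - (m + e)) * (x - (m - e)) =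
    (x - m) ^ 2 - e ^ 2 := by ring

section
variable {R L : Type} [CommRing R] [CommRing L] (φ θ : R[X] →+* L) (ψ : R →+* L) (x y : L)
  (hφC : ∀ c, φ (C c) = ψ c) (hθC : ∀ c, θ (C c) = ψ c) (hφX : φ X = y) (hθX : θ X = x)
  (hxy : x * y = 1)

include hφC hθC hφX hθX hxy

lemma abs12 (Q : SPar R) (V T₁ : R[X]) (h : Q.VT V T₁) (a b lm : L)
    (hb : b = (ψ Q.s * y + 1) * ψ Q.i) (ha : a = (x - ψ Q.μ) * b + ψ Q.s * y)
    (hlm : lm = (x - ψ Q.ξ₁) * (x - ψ Q.ξ₂)) :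
    (∃ G : R[X], ψ ((Q.u ^ 2 + 8) * Q.ε ^ 2) *
      (y ^ 3 * (θ V * (a ^ 2 + lm * b ^ 2) + 2 * a * b * lm * θ T₁)) = φ G) ∧
    ∃ G : R[X], ψ ((Q.u ^ 2 + 8) * Q.ε ^ 2) *
      (y ^ 2 * (θ T₁ * (a ^ 2 + lm * b ^ 2) + 2 * a * b * θ V)) = φ G := by
  obtain ⟨Ar, e1⟩ : ∃ Ar : R[X], φ Ar = y ^ 3 * θ Q.At := by
    rw [SPar.At]
    exact ⟨_, revA φ θ ψ x y hφC hθC hφX hθX hxy _ _ _ _⟩
  obtain ⟨Qr, e2⟩ : ∃ Qr : R[X], φ Qr = y ^ 2 * θ Q.Qt := by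
    rw [SPar.Qt]
    exact ⟨_, revQ φ θ ψ x y hφC hθC hφX hθX hxy _ _ _ _⟩
  obtain ⟨lr, e3⟩ : ∃ lr : R[X], φ lr = y ^ 2 * ((x - ψ Q.ξ₁) * (x - ψ Q.ξ₂)) :=
    ⟨_, revl φ ψ x y hφC hφX hxy _ _⟩
  obtain ⟨ar, e4⟩ : ∃ ar : R[X], φ ar =
      ψ (Q.ε ^ 2) * ((ψ Q.s * y + 1) * ψ Q.i) + ψ Q.s * y * (x - ψ Q.μ) :=
    ⟨_, reva φ ψ x y hφC hφX hxy _ _ _ _⟩
  have hV := congrArg θ h.hV
  have hT := congrArg θ h.hT
  generalize (Q.u ^ 2 + 8) * Q.ε ^ 2 = D at hV hT ⊢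
  have hll : θ Q.ll = (x - ψ Q.ξ₁) * (x - ψ Q.ξ₂) := by
    simp only [SPar.ll, map_mul, map_sub, hθC, hθX]
  have hmm : θ Q.mm = x - ψ Q.μ := by
    simp only [SPar.mm, map_sub, hθC, hθX]
  have hsl : (x - ψ Q.ξ₁) * (x - ψ Q.ξ₂) = (x - ψ Q.μ) ^ 2 - ψ (Q.ε ^ 2) := by
    rw [SPar.ξ₁, SPar.ξ₂, map_add, map_sub, slm_eq, map_pow]
  have h2 : θ (2 : R[X]) = 2 := map_ofNat _ 2
  have h2' : φ (2 : R[X]) = 2 := map_ofNat _ 2
  simp only [map_mul, map_sub, map_add, map_pow, hll, hmm, h2, hsl, hθC] at hV hT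
  rw [hsl] at e3 hlm
  rw [← hb] at e4
  subst ha hlm
  simp only [map_pow] at e3 e4 hV hT
  refine ⟨⟨Ar * (ar ^ 2 + C Q.s ^ 2 * lr) - 2 * C Q.s * ar * lr * Qr, ?_⟩,
    ⟨Qr * (ar ^ 2 + C Q.s ^ 2 * lr) - 2 * C Q.s * ar * Ar, ?_⟩⟩
  · simp only [map_sub, map_mul, map_add, map_pow, h2', e1, e2, e3, e4, hφC]
    exact alg1 _ _ _ _ _ _ _ _ _ _ hV hT
  · simp only [map_sub, map_mul, map_add, map_pow, h2', e1, e2, e3, e4, hφC]
    exact alg2 _ _ _ _ _ _ _ _ _ _ hV hT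

end


/-- A Laurent polynomial over a domain with a nonzero multiple (by a constant) in `R[1/T]` is in
`R[1/T]`. -/
lemma key {R : Type} [CommRing R] [IsDomain R] {F : R[T;T⁻¹]} {D : R} (hD : D ≠ 0) {G : R[X]}
    (h : LaurentPolynomial.C D * F = inv R (toLaurent G)) :
    ∃ V : R[X], inv R (toLaurent V) = F := by
  refine key_abs toLaurent (inv R) LaurentPolynomial.C (T 1) (T (-1)) inv_inv inv_C
    toLaurent_C toLaurent_X hxy toLaurent_injective (fun z => ?_) hD h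
  obtain ⟨n, P, hP⟩ := LaurentPolynomial.exists_T_pow z
  refine ⟨n, P, ?_⟩
  rw [hP, LaurentPolynomial.T_pow, mul_one]

theorem spb : S_spb := by
  intro R _ _ Q V T₁ hD h
  have hT3 : (T (-3) : R[T;T⁻¹]) = T (-1) ^ 3 := by rw [LaurentPolynomial.T_pow]; norm_num
  have hT2 : (T (-2) : R[T;T⁻¹]) = T (-1) ^ 2 := by rw [LaurentPolynomial.T_pow]; norm_num
  obtain ⟨⟨G, hG⟩, G', hG'⟩ := abs12 ((inv R).comp toLaurent) toLaurent LaurentPolynomial.C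
    (T 1) (T (-1)) (fun c => by rw [RingHom.comp_apply, toLaurent_C, inv_C]) toLaurent_C
    (by rw [RingHom.comp_apply, toLaurent_X, inv_T]) toLaurent_X hxy Q V T₁ h
    (sA Q.μ Q.s Q.i) (sB Q.s Q.i) (slm Q.ξ₁ Q.ξ₂) rfl rfl rfl
  rw [RingHom.comp_apply] at hG hG'
  obtain ⟨V₂, hV₂⟩ := key hD hG
  obtain ⟨T₂, hT₂⟩ := key hD hG'
  rw [← hT3] at hV₂
  rw [← hT2] at hT₂
  exact ⟨V₂, T₂, hV₂, hT₂⟩

end Pool.Agent.H603.MG927
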